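import Pool.Agent.Lib.MP_fb520c_co.Cell.Cut
import Pool.Agent.Lib.MP_fb520c_co.Chk.Run

/-! The quadratic inequality of one cell from its certificate. -/

set_option autoImplicit false

noncomputable section

namespace Pool.Agent.Lib.MP_fb520c_co.Dent

open Chk (C QC Wt runOK run_sound bil locv imul rec_true)

/-- a number in units `2 ^ (-32)` -/
def q32 (n : ℕ) : ℚ := mkRat (.ofNat n) 4294967296

lemma q32_cast (n : ℕ) : (q32 n : ℝ) = n / 2 ^ 32 := by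
  rw [q32, Rat.mkRat_eq_div]; push_cast; norm_num

/-- parameters in units `2 ^ (-32)` -/
def ParQ.mk32 (be rb c ib pbar Tlo Thi ep wr n1 n1' n2 D1 Dbar Wbar c0 : ℕ) : ParQ :=
  ⟨q32 be, q32 rb, q32 c, q32 ib, q32 pbar, q32 Tlo, q32 Thi, q32 ep, q32 wr, q32 n1, q32 n1',
    q32 n2, q32 D1, q32 Dbar, q32 Wbar, q32 c0⟩

/-- the real coefficients -/
def toQ21 (q : QC) : Q21 :=
  ⟨q.q0, q.q1, q.m02, q.m03, q.m04, q.m05, q.q6, q.m12, q.m13, q.m14, q.m15, q.n22, q.m23, q.n33,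
    q.m24, q.m25, q.m34, q.m35, q.n44, q.m45, q.n55⟩

/-- the certificate of one cell -/
structure CellD where
  p : ParQ
  c1 : C
  c2 : C
  c3 : C
  q : QC
  w : Wt
  H : ℕ
  s : ℕ
  cut : CutD

/-- the check of one cell; `be` bounds the three values in units `2 ^ (-32)` -/
def cellOK (g : Dirs) (be : ℕ) (d : CellD) (G : List (List ℤ × List ℤ)) : Bool :=
  Bool.rec false (Bool.rec false
    (runOK d.p g d.c1 d.c2 d.c3 (imul d.cut.tc 281474976710656) d.q d.w d.H d.s G)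
    (cutOK d.p (toQ21 d.q) d.cut)) (decide (d.p.Good g ∧ q32 be ≤ d.p.be))

theorem cell_sound {g : Dirs} {be : ℕ} {d : CellD} {G : List (List ℤ × List ℤ)}
    (h : cellOK g be d G = true) {A η : ℝ} {b : ℂ → ℂ} (hG : Geo A η b)
    (b1 : ‖b g.um‖ ≤ be / 2 ^ 32) (b2 : ‖b g.u0‖ ≤ be / 2 ^ 32) (b3 : ‖b g.up‖ ≤ be / 2 ^ 32) :
    0 ≤ bil G (locv (g.loc b)) := by
  obtain ⟨h1, h2⟩ := rec_true h
  obtain ⟨h3, h4⟩ := rec_true h1
  obtain ⟨k1, k2⟩ := of_decide_eq_true h2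
  have k : (be : ℝ) / 2 ^ 32 ≤ d.p.be := by rw [← q32_cast]; exact_mod_cast k2
  have o := (k1.pre hG (b1.trans k) (b2.trans k) (b3.trans k)).out k1.ok
  refine run_sound h3 o (b1.trans k) (b2.trans k) (b3.trans k) ?_
  have e : ((imul d.cut.tc 281474976710656 : ℤ) : ℝ) / Chk.sc = d.cut.tc / 65536 := by
    rw [Chk.imul_eq, Chk.sc]; push_cast; ring
  rw [e]
  exact cut_sound h4 o

end Pool.Agent.Lib.MP_fb520c_co.Dent
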