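import Pool.Agent.Lib.MP_fb520c_co.Dent.ParQ
import Pool.Agent.Lib.MP_fb520c_co.Chk.SOS

/-! The cut: a quadratic in the speeds and the control that is nonnegative on the control
triangles, checked at the three vertices by sums of squares. -/

set_option autoImplicit false

noncomputable section

namespace Pool.Agent.Lib.MP_fb520c_co.Dent

open Chk (iadd imul isub PK P3 sosOK sos_sound rec_true)

/-- the coefficients of a quadratic in five variables -/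
structure Q21 where
  q0 : ℤ
  q1 : ℤ
  m02 : ℤ
  m03 : ℤ
  m04 : ℤ
  m05 : ℤ
  q6 : ℤ
  m12 : ℤ
  m13 : ℤ
  m14 : ℤ
  m15 : ℤ
  n22 : ℤ
  m23 : ℤ
  n33 : ℤ
  m24 : ℤ
  m25 : ℤ
  m34 : ℤ
  m35 : ℤ
  n44 : ℤ
  m45 : ℤ
  n55 : ℤ

/-- the value -/
def Q21.ev (q : Q21) (t zx zy wx wy : ℝ) : ℝ :=
  q.q0 + q.q1 * t + q.m02 * zx + q.m03 * zy + q.m04 * wx + q.m05 * wy + q.q6 * t ^ 2 +
    q.m12 * t * zx + q.m13 * t * zy + q.m14 * t * wx + q.m15 * t * wy + q.n22 * zx ^ 2 +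
    q.m23 * zx * zy + q.n33 * zy ^ 2 + q.m24 * zx * wx + q.m25 * zx * wy + q.m34 * zy * wx +
    q.m35 * zy * wy + q.n44 * wx ^ 2 + q.m45 * wx * wy + q.n55 * wy ^ 2

/-- the data of the check; lengths in units `2 ^ (-16)` -/
structure CutD where
  tc : ℤ
  sT : ℤ
  tr : ℤ
  xr : ℤ
  yr : ℤ
  zb : ℤ
  zr : ℤ
  aT : ℤ
  aZ : ℤ
  c0 : ℤ
  ep : ℤ
  H : ℕ
  O : ℕ
  k : ℕ
  k1 : ℕ
  k2 : ℕ
  s0 : List ℕ
  m0 : List (List ℕ)
  s1 : List ℕ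
  m1 : List (List ℕ)
  s2 : List ℕ
  m2 : List (List ℕ)

/-- a quadratic majorant of the square of the speed form about a reference point -/
theorem sq_major2 {t x y tr xr yr Thi zb zr aT aZ : ℝ} (ht0 : 0 ≤ t) (ht : t ≤ Thi) (htr : 0 ≤ tr)
    (hz : x ^ 2 + 3 * y ^ 2 ≤ zb ^ 2) (hzr : xr ^ 2 + 3 * yr ^ 2 ≤ zr ^ 2) (b0 : 0 ≤ zb)
    (r0 : 0 ≤ zr) (hT : 9 * (Thi + tr) ^ 2 ≤ aT) (hZ : (zb + zr) ^ 2 ≤ aZ)
    (hp : 9 * (Thi + tr) ^ 2 * (zb + zr) ^ 2 ≤ (aT - 9 * (Thi + tr) ^ 2) * (aZ - (zb + zr) ^ 2)) :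
    (3 * t ^ 2 - (x ^ 2 + 3 * y ^ 2)) ^ 2 ≤
      2 * (3 * tr ^ 2 - xr ^ 2 - 3 * yr ^ 2) * (3 * t ^ 2 - (x ^ 2 + 3 * y ^ 2)) -
        (3 * tr ^ 2 - xr ^ 2 - 3 * yr ^ 2) ^ 2 + aT * (t - tr) ^ 2 +
      aZ * ((x - xr) ^ 2 + 3 * (y - yr) ^ 2) := by
  have k1 : (3 * (t + tr) * (t - tr)) ^ 2 ≤ 9 * (Thi + tr) ^ 2 * (t - tr) ^ 2 := by
    have := mul_le_mul_of_nonneg_right (pow_le_pow_left₀ (by linarith) (add_le_add_left ht tr) 2)
      (sq_nonneg (t - tr))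
    nlinarith
  have k0 : x * xr + 3 * (y * yr) ≤ zb * zr := by
    refine (abs_le_of_sq_le_sq' ?_ (mul_nonneg b0 r0)).2
    have := mul_le_mul hz hzr (by positivity) (by positivity)
    nlinarith [sq_nonneg (x * yr - y * xr)]
  have k2 : ((x + xr) * (x - xr) + 3 * (y + yr) * (y - yr)) ^ 2 ≤
      (zb + zr) ^ 2 * ((x - xr) ^ 2 + 3 * (y - yr) ^ 2) := by
    have m1 : (x + xr) ^ 2 + 3 * (y + yr) ^ 2 ≤ (zb + zr) ^ 2 := by linarith
    have m2 := mul_le_mul_of_nonneg_right m1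
      (show 0 ≤ (x - xr) ^ 2 + 3 * (y - yr) ^ 2 by positivity)
    nlinarith [sq_nonneg ((x + xr) * (y - yr) - (y + yr) * (x - xr))]
  have e : (3 * t ^ 2 - (x ^ 2 + 3 * y ^ 2)) ^ 2 =
      2 * (3 * tr ^ 2 - xr ^ 2 - 3 * yr ^ 2) * (3 * t ^ 2 - (x ^ 2 + 3 * y ^ 2)) -
        (3 * tr ^ 2 - xr ^ 2 - 3 * yr ^ 2) ^ 2 +
      (3 * (t + tr) * (t - tr) - ((x + xr) * (x - xr) + 3 * (y + yr) * (y - yr))) ^ 2 := by ring
  rw [e]
  have u0 := sq_nonneg (t - tr)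
  have v0 : 0 ≤ (x - xr) ^ 2 + 3 * (y - yr) ^ 2 := by positivity
  have A0 : 0 ≤ 9 * (Thi + tr) ^ 2 := by positivity
  generalize 3 * (t + tr) * (t - tr) = a at *
  generalize (x + xr) * (x - xr) + 3 * (y + yr) * (y - yr) = b at *
  generalize (x - xr) ^ 2 + 3 * (y - yr) ^ 2 = v at *
  generalize (t - tr) ^ 2 = u at *
  generalize 9 * (Thi + tr) ^ 2 = A at *
  generalize (zb + zr) ^ 2 = B at *
  have m1 := mul_le_mul k1 k2 (sq_nonneg _) (mul_nonneg A0 u0)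
  have m2 := mul_le_mul_of_nonneg_right hp (mul_nonneg u0 v0)
  have m3 : -((aT - A) * u + (aZ - B) * v) ≤ 2 * a * b := by
    refine (abs_le_of_sq_le_sq' ?_ (add_nonneg (mul_nonneg (sub_nonneg.2 hT) u0)
      (mul_nonneg (sub_nonneg.2 hZ) v0))).1
    nlinarith [sq_nonneg ((aT - A) * u - (aZ - B) * v)]
  linarith

lemma _root_.Pool.Agent.Lib.MP_fb520c_co.Chk.P3.resc {B n : ℕ} {u v w f : ℝ} {a : PK}
    (h : P3 B u v w n a f) :
    ∃ g : ℝ, P3 B u v w n a (18446744073709551616 * g) ∧ f = 18446744073709551616 * g :=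
  ⟨f / 18446744073709551616, h.congr (by ring), by ring⟩

namespace CutD

/-- an affine polynomial -/
def pL (a b c d : ℤ) (t x y : PK) : PK :=
  ((PK.const (imul a 65536)).add (t.smul b)).add ((x.smul c).add (y.smul d))

/-- the part of the quadratic without the control -/
def pA (q : Q21) (t x y : PK) : PK :=
  (PK.const (imul q.q0 4294967296)).add ((t.mul (pL q.q1 q.q6 q.m12 q.m13 t x y)).add
    ((x.mul (pL q.m02 0 q.n22 q.m23 t x y)).add (y.mul (pL q.m03 0 0 q.n33 t x y))))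

/-- `x ^ 2 + 3 y ^ 2` -/
def pN (x y : PK) : PK := (x.mul x).add ((y.mul y).smul 3)

/-- the size of the triangle -/
def pC (d : CutD) (sh : ℤ) (T dT x y : PK) : PK :=
  (((((T.mul T).smul 3).sub (pN x y)).smul (imul 2 sh)).add (PK.const (isub d.c0 (imul sh sh)))).add
    (((dT.mul dT).smul d.aT).add
      ((pN (x.sub (PK.const d.xr)) (y.sub (PK.const d.yr))).smul d.aZ))

/-- the quadratic at a vertex, times the square of the weight -/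
def pV (A C CC w b : PK) (n : ℤ) : PK :=
  ((A.mul (w.mul w)).smul 166020696663385964544).add
    (((C.mul (w.mul b)).smul 12884901888).add (CC.smul n))

/-- the multipliers -/
def gl (d : CutD) (v p0 n0 p1 n1 p2 n2 : PK) : List PK :=
  [((PK.const 1).sub (v.mul v)).smul (.ofNat d.k), (p0.mul n0).smul (.ofNat d.k2),
    (p1.mul n1).smul (.ofNat d.k2), (p2.mul n2).smul (.ofNat d.k2), p0.smul (.ofNat d.k1),
    n0.smul (.ofNat d.k1), p1.smul (.ofNat d.k1), n1.smul (.ofNat d.k1), p2.smul (.ofNat d.k1),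
    n2.smul (.ofNat d.k1)]

/-- the three tests -/
def ok3 (q : Q21) (d : CutD) (gs : List PK) (A C CC b1 b2 T x y : PK) : Bool :=
  Bool.rec false (Bool.rec false
    (sosOK d.H d.k d.O (pV A C CC (T.sub (y.smul 2)) (b2.smul 2) (imul 4 q.n55)) gs d.s0 d.m0)
    (sosOK d.H d.k d.O (pV A C CC ((T.add y).add x) ((b1.smul 3).add b2).neg
      (iadd (iadd (imul 9 q.n44) (imul 3 q.m45)) q.n55)) gs d.s1 d.m1))
    (sosOK d.H d.k d.O (pV A C CC ((T.add y).sub x) ((b1.smul 3).sub b2)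
      (iadd (isub (imul 9 q.n44) (imul 3 q.m45)) q.n55)) gs d.s2 d.m2)

lemma ok3_split {q : Q21} {d : CutD} {gs : List PK} {A C CC b1 b2 T x y : PK}
    (h : ok3 q d gs A C CC b1 b2 T x y = true) :
    sosOK d.H d.k d.O (pV A C CC (T.sub (y.smul 2)) (b2.smul 2) (imul 4 q.n55)) gs d.s0 d.m0 =
      true ∧
    sosOK d.H d.k d.O (pV A C CC ((T.add y).add x) ((b1.smul 3).add b2).neg
      (iadd (iadd (imul 9 q.n44) (imul 3 q.m45)) q.n55)) gs d.s1 d.m1 = true ∧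
    sosOK d.H d.k d.O (pV A C CC ((T.add y).sub x) ((b1.smul 3).sub b2)
      (iadd (isub (imul 9 q.n44) (imul 3 q.m45)) q.n55)) gs d.s2 d.m2 = true :=
  ⟨(rec_true (rec_true h).1).1, (rec_true (rec_true h).1).2, (rec_true h).2⟩

/-- second stage -/
def ok2 (q : Q21) (d : CutD) (gs : List PK) (C t T x y : PK) : Bool :=
  ok3 q d gs (pA q t x y) C (C.mul C) (pL q.m04 q.m14 q.m24 q.m34 t x y)
    (pL q.m05 q.m15 q.m25 q.m35 t x y) T x y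

/-- first stage -/
def ok1 (q : Q21) (d : CutD) (B : ℕ) (e a : ℤ) (T x y : PK) : Bool :=
  ok2 q d (gl d (.aff B 0 1 0 0) (.aff B e a (-5242880) 2555904) (.aff B e a 5242880 2555904)
      (.aff B e a 1343488 (-9142272)) (.aff B e a (-3899392) 6586368)
      (.aff B e a 3899392 6586368) (.aff B e a (-1343488) (-9142272)))
    (pC d (isub (imul 3 (imul d.tr d.tr)) (iadd (imul d.xr d.xr) (imul 3 (imul d.yr d.yr)))) T
      (T.sub (PK.const d.tr)) x y) (.aff B 0 d.sT 0 0) T x y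

/-- the sums of squares -/
def ok0 (q : Q21) (d : CutD) (B : ℕ) : Bool :=
  ok1 q d B (iadd (imul 78 d.tc) d.ep) (imul 78 d.sT) (.aff B d.tc d.sT 0 0) (.aff B 0 0 32768 0)
    (.aff B 0 0 0 32768)

/-- the side conditions -/
def Side (p : ParQ) (q : Q21) (d : CutD) : Prop :=
  (((d.tc - d.sT : ℤ) : ℚ) ≤ 65536 * p.Tlo ∧ 65536 * p.Thi ≤ ((d.tc + d.sT : ℤ) : ℚ) ∧
    3 * (65536 * p.c * p.Thi) ^ 2 ≤ ((d.zb ^ 2 : ℤ) : ℚ) ∧
    18446744073709551616 * p.c0 ≤ (d.c0 : ℚ) ∧ 10485760 * p.ep ≤ (d.ep : ℚ)) ∧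
  (0 < d.sT ∧ 0 ≤ d.tr ∧ 0 ≤ d.zb ∧ d.zb ≤ 32768 ∧ 0 ≤ d.zr ∧
    d.xr ^ 2 + 3 * d.yr ^ 2 ≤ d.zr ^ 2 ∧ 0 < d.c0 ∧ 0 < d.O) ∧
  (9 * (d.tc + d.sT + d.tr) ^ 2 ≤ d.aT ∧ (d.zb + d.zr) ^ 2 ≤ d.aZ ∧
    9 * (d.tc + d.sT + d.tr) ^ 2 * (d.zb + d.zr) ^ 2 ≤
      (d.aT - 9 * (d.tc + d.sT + d.tr) ^ 2) * (d.aZ - (d.zb + d.zr) ^ 2)) ∧
  (q.n44 ≤ 0 ∧ q.n55 ≤ 0 ∧ q.m45 ^ 2 ≤ 4 * (q.n44 * q.n55))

instance (p : ParQ) (q : Q21) (d : CutD) : Decidable (Side p q d) := by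
  unfold Side; infer_instance

variable {B : ℕ} {u v w : ℝ} {t T x y : PK} {rt rT rx ry : ℝ}

lemma pL_ev (a b c d : ℤ) (ht : P3 B u v w 1 t rt) (hx : P3 B u v w 1 x rx)
    (hy : P3 B u v w 1 y ry) :
    P3 B u v w 1 (pL a b c d t x y) (a * 65536 + b * rt + c * rx + d * ry) :=
  (((P3.const _).add (ht.smul b)).add ((hx.smul c).add (hy.smul d))).congr (by simp; ring)

lemma pN_ev (hx : P3 B u v w 1 x rx) (hy : P3 B u v w 1 y ry) :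
    P3 B u v w 2 (pN x y) (rx ^ 2 + 3 * ry ^ 2) :=
  ((hx.mul hx le_rfl (by norm_num)).add ((hy.mul hy le_rfl (by norm_num)).smul 3)).congr
    (by push_cast; ring)

lemma pA_ev (q : Q21) (ht : P3 B u v w 1 t rt) (hx : P3 B u v w 1 x rx)
    (hy : P3 B u v w 1 y ry) : P3 B u v w 2 (pA q t x y)
    (q.q0 * 4294967296 + 65536 * (q.q1 * rt + q.m02 * rx + q.m03 * ry) + q.q6 * rt ^ 2 +
      q.m12 * rt * rx + q.m13 * rt * ry + q.n22 * rx ^ 2 + q.m23 * rx * ry + q.n33 * ry ^ 2) :=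
  ((P3.const _).add ((ht.mul (pL_ev _ _ _ _ ht hx hy) le_rfl (by norm_num)).add
    ((hx.mul (pL_ev _ _ _ _ ht hx hy) le_rfl (by norm_num)).add
      (hy.mul (pL_ev _ _ _ _ ht hx hy) le_rfl (by norm_num))))).congr (by simp; ring)

lemma pC_ev (d : CutD) (sh : ℤ) (hT : P3 B u v w 1 T rT) (ht : P3 B u v w 1 t rt)
    (hx : P3 B u v w 1 x rx) (hy : P3 B u v w 1 y ry) : P3 B u v w 2 (pC d sh T t x y)
    (2 * sh * (3 * rT ^ 2 - (rx ^ 2 + 3 * ry ^ 2)) - sh ^ 2 + d.aT * rt ^ 2 +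
      d.aZ * ((rx - d.xr) ^ 2 + 3 * (ry - d.yr) ^ 2) + d.c0) :=
  ((((((hT.mul hT le_rfl (by norm_num)).smul 3).sub (pN_ev hx hy)).smul _).add (P3.const _)).add
    (((ht.mul ht le_rfl (by norm_num)).smul _).add
      ((pN_ev (hx.sub (P3.const _)) (hy.sub (P3.const _))).smul _))).congr (by simp; ring)

lemma pV_ev {A C CC : PK} {rA rC : ℝ} (n : ℤ) (hA : P3 B u v w 2 A rA) (hC : P3 B u v w 2 C rC)
    (hCC : P3 B u v w 4 CC (rC * rC)) (hT : P3 B u v w 1 T rT) (hx : P3 B u v w 1 x rx) :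
    P3 B u v w 4 (pV A C CC T x n) (166020696663385964544 * (rA * rT ^ 2) +
      12884901888 * (rC * rT * rx) + n * rC ^ 2) :=
  (((hA.mul (hT.mul hT (e := 2) le_rfl (by norm_num)) le_rfl le_rfl).smul _).add
    (((hC.mul (hT.mul hx (e := 2) le_rfl (by norm_num)) le_rfl le_rfl).smul _).add
      (hCC.smul n))).congr (by push_cast; ring)

lemma gl_ev (d : CutD) {z p0 n0 p1 n1 p2 n2 : PK} {rz a0 b0 a1 b1 a2 b2 : ℝ}
    (hz : P3 B u v w 1 z rz) (h0 : P3 B u v w 1 p0 a0) (k0 : P3 B u v w 1 n0 b0)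
    (h1 : P3 B u v w 1 p1 a1) (k1 : P3 B u v w 1 n1 b1) (h2 : P3 B u v w 1 p2 a2)
    (k2 : P3 B u v w 1 n2 b2) (mz : |rz| ≤ 1) (m0 : 0 ≤ a0) (l0 : 0 ≤ b0) (m1 : 0 ≤ a1)
    (l1 : 0 ≤ b1) (m2 : 0 ≤ a2) (l2 : 0 ≤ b2) :
    ∀ g ∈ gl d z p0 n0 p1 n1 p2 n2, ∃ e, 0 ≤ e ∧ P3 B u v w 2 g e := by
  have c : ∀ (k : ℕ) {g : PK} {e : ℝ}, 0 ≤ e → P3 B u v w 2 g e →
      ∃ e, 0 ≤ e ∧ P3 B u v w 2 (g.smul (.ofNat k)) e := fun k g e he hg =>
    ⟨_, mul_nonneg (by simp) he, hg.smul _⟩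
  have one : (1 : ℕ) ≤ 2 := by norm_num
  have four : (2 : ℕ) ≤ 4 := by norm_num
  simp only [gl, List.forall_mem_cons, List.not_mem_nil, false_imp_iff, implies_true, and_true]
  refine ⟨c _ ?_ ((P3.const 1).sub (hz.mul hz le_rfl four)),
    c _ (mul_nonneg m0 l0) (h0.mul k0 le_rfl four), c _ (mul_nonneg m1 l1) (h1.mul k1 le_rfl four),
    c _ (mul_nonneg m2 l2) (h2.mul k2 le_rfl four), c _ m0 (h0.mono one), c _ l0 (k0.mono one),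
    c _ m1 (h1.mono one), c _ l1 (k1.mono one), c _ m2 (h2.mono one), c _ l2 (k2.mono one)⟩
  have := abs_le.1 mz
  push_cast
  nlinarith

end CutD

/-- the check of the cut -/
def cutOK (p : ParQ) (q : Q21) (d : CutD) : Bool :=
  Bool.rec false (d.ok0 q (Nat.add d.H d.H)) (decide (d.Side p q))

open CutD in
theorem cut_sound {p : ParQ} {q : Q21} {d : CutD} (h : cutOK p q d = true) {L : Loc}
    (o : Out p.par L) : 0 ≤ q.ev (L.Th - d.tc / 65536) L.Zx L.Zy L.Wx L.Wy := by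
  obtain ⟨h1, h2⟩ := rec_true h
  obtain ⟨⟨a1, a2, a3, a4, a5⟩, ⟨b1, b2, b3, b4, b5, b6, b7, b8⟩, ⟨c1, c2, c3⟩, d1, d2, d3⟩ :=
    of_decide_eq_true h2
  have lo : (p.Tlo : ℝ) ≤ L.Th := o.reg.lo
  have hi : L.Th ≤ (p.Thi : ℝ) := o.reg.hi
  have a1' : (d.tc : ℝ) - d.sT ≤ 65536 * p.Tlo := by exact_mod_cast a1
  have a2' : 65536 * (p.Thi : ℝ) ≤ d.tc + d.sT := by exact_mod_cast a2
  have a3' : 3 * (65536 * (p.c : ℝ) * p.Thi) ^ 2 ≤ (d.zb : ℝ) ^ 2 := by exact_mod_cast a3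
  have a4' : 18446744073709551616 * (p.c0 : ℝ) ≤ d.c0 := by exact_mod_cast a4
  have a5' : 10485760 * (p.ep : ℝ) ≤ d.ep := by exact_mod_cast a5
  have b1' : (0 : ℝ) < d.sT := by exact_mod_cast b1
  have b3' : (0 : ℝ) ≤ d.zb := by exact_mod_cast b3
  have b4' : (d.zb : ℝ) ≤ 32768 := by exact_mod_cast b4
  have b7' : (0 : ℝ) < d.c0 := by exact_mod_cast b7
  have th0 : 0 ≤ L.Th := by linarith only [o.w0, o.w1, o.w2, o.th0]
  have zb : (65536 * L.Zx) ^ 2 + 3 * (65536 * L.Zy) ^ 2 ≤ (d.zb : ℝ) ^ 2 := by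
    have k : L.Zx ^ 2 + 3 * L.Zy ^ 2 ≤ 3 * (p.c : ℝ) ^ 2 * L.Th ^ 2 := o.zb
    have k2 := mul_le_mul_of_nonneg_left (pow_le_pow_left₀ th0 hi 2) (sq_nonneg (p.c : ℝ))
    linarith only [k, k2, a3']
  have zb2 : (d.zb : ℝ) ^ 2 ≤ 32768 ^ 2 := pow_le_pow_left₀ b3' b4' 2
  obtain ⟨u, hu⟩ : ∃ u : ℝ, 65536 * L.Th = d.tc + d.sT * u :=
    ⟨(65536 * L.Th - d.tc) / d.sT, by field_simp; ring⟩
  have u1 : |u| ≤ 1 := abs_le.2 ⟨le_of_mul_le_mul_left (by linarith only [hu, lo, a1']) b1',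
    le_of_mul_le_mul_left (by linarith only [hu, hi, a2']) b1'⟩
  have v1 : |2 * L.Zx| ≤ 1 :=
    abs_le_of_sq_le_sq (by linarith only [zb, zb2, sq_nonneg L.Zy]) zero_le_one
  have w1 : |2 * L.Zy| ≤ 1 :=
    abs_le_of_sq_le_sq (by linarith only [zb, zb2, sq_nonneg L.Zx, sq_nonneg L.Zy]) zero_le_one
  have hT : P3 (d.H + d.H) u (2 * L.Zx) (2 * L.Zy) 1 (.aff (d.H + d.H) d.tc d.sT 0 0)
      (65536 * L.Th) := (P3.aff _ _ _ _).congr (by rw [hu]; simp)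
  have ht : P3 (d.H + d.H) u (2 * L.Zx) (2 * L.Zy) 1 (.aff (d.H + d.H) 0 d.sT 0 0)
      (65536 * (L.Th - d.tc / 65536)) := (P3.aff _ _ _ _).congr (by push_cast; linarith only [hu])
  have hx : P3 (d.H + d.H) u (2 * L.Zx) (2 * L.Zy) 1 (.aff (d.H + d.H) 0 0 32768 0)
      (65536 * L.Zx) := (P3.aff _ _ _ _).congr (by push_cast; ring)
  have hy : P3 (d.H + d.H) u (2 * L.Zx) (2 * L.Zy) 1 (.aff (d.H + d.H) 0 0 0 32768)
      (65536 * L.Zy) := (P3.aff _ _ _ _).congr (by push_cast; ring)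
  have r0 := abs_le.1 o.reg.r0
  have r1 := abs_le.1 o.reg.r1
  have r2 := abs_le.1 o.reg.r2
  have ee : p.par.ep = p.ep := rfl
  rw [ee] at r0 r1 r2
  have hg := gl_ev (B := d.H + d.H) (u := u) (v := 2 * L.Zx) (w := 2 * L.Zy) d (P3.aff 0 1 0 0)
    (P3.aff (iadd (imul 78 d.tc) d.ep) (imul 78 d.sT) (-5242880) 2555904)
    (P3.aff (iadd (imul 78 d.tc) d.ep) (imul 78 d.sT) 5242880 2555904)
    (P3.aff (iadd (imul 78 d.tc) d.ep) (imul 78 d.sT) 1343488 (-9142272))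
    (P3.aff (iadd (imul 78 d.tc) d.ep) (imul 78 d.sT) (-3899392) 6586368)
    (P3.aff (iadd (imul 78 d.tc) d.ep) (imul 78 d.sT) 3899392 6586368)
    (P3.aff (iadd (imul 78 d.tc) d.ep) (imul 78 d.sT) (-1343488) (-9142272))
    (by simpa using u1) (by simp; linarith only [r0.2, hu, a5'])
    (by simp; linarith only [r0.1, hu, a5']) (by simp; linarith only [r1.2, hu, a5'])
    (by simp; linarith only [r1.1, hu, a5']) (by simp; linarith only [r2.2, hu, a5'])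
    (by simp; linarith only [r2.1, hu, a5'])
  have hC := pC_ev d (isub (imul 3 (imul d.tr d.tr))
    (iadd (imul d.xr d.xr) (imul 3 (imul d.yr d.yr)))) hT (hT.sub (P3.const d.tr)) hx hy
  have mj := sq_major2 (t := 65536 * L.Th) (Thi := d.tc + d.sT) (tr := d.tr) (xr := d.xr)
    (yr := d.yr) (zr := d.zr) (aT := d.aT) (aZ := d.aZ) (by positivity) (by linarith only [hi, a2'])
    (by exact_mod_cast b2) zb (by exact_mod_cast b6) b3' (by exact_mod_cast b5)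
    (by exact_mod_cast c1) (by exact_mod_cast c2) (by exact_mod_cast c3)
  rw [show (3 * (d.tr : ℝ) ^ 2 - d.xr ^ 2 - 3 * d.yr ^ 2) = ((isub (imul 3 (imul d.tr d.tr))
    (iadd (imul d.xr d.xr) (imul 3 (imul d.yr d.yr))) : ℤ) : ℝ) by simp; ring] at mj
  obtain ⟨Ch, hC, hCh⟩ := hC.resc
  have c0 : L.C0 ≤ L.s ^ 2 + (p.c0 : ℝ) := o.hc0
  have e0 : (3 * (65536 * L.Th) ^ 2 - ((65536 * L.Zx) ^ 2 + 3 * (65536 * L.Zy) ^ 2)) ^ 2 =
      18446744073709551616 * L.s ^ 2 := by rw [Loc.s]; ring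
  have tri := o.tri Ch (by linarith only [c0, e0, mj, hCh, a4'])
    (by linarith only [e0, mj, hCh, b7', sq_nonneg L.s])
  have hA := pA_ev q ht hx hy
  have hb1 := pL_ev q.m04 q.m14 q.m24 q.m34 ht hx hy
  have hb2 := pL_ev q.m05 q.m15 q.m25 q.m35 ht hx hy
  have hCC := hC.mul hC (e := 4) le_rfl le_rfl
  rw [ok0, ok1, ok2] at h1
  obtain ⟨k0, k1, k2⟩ := ok3_split h1
  have s0 := sos_sound b8 k0 u1 v1 w1 (pV_ev _ hA hC hCC (hT.sub (hy.smul 2)) (hb2.smul 2)) hg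
  have s1 := sos_sound b8 k1 u1 v1 w1
    (pV_ev _ hA hC hCC ((hT.add hy).add hx) ((hb1.smul 3).add hb2).neg) hg
  have s2 := sos_sound b8 k2 u1 v1 w1
    (pV_ev _ hA hC hCC ((hT.add hy).sub hx) ((hb1.smul 3).sub hb2)) hg
  simp only [Chk.iadd_eq, Chk.imul_eq, Chk.isub_eq] at s0 s1 s2
  push_cast at s0 s1 s2
  generalize (d.tc : ℝ) / 65536 = tc at *
  have fin := tri.cut (o.th0.trans_le o.w0) (o.th0.trans_le o.w1) (o.th0.trans_le o.w2)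
    (q0 := -(q.q0 + q.q1 * (L.Th - tc) + q.m02 * L.Zx + q.m03 * L.Zy + q.q6 * (L.Th - tc) ^ 2 +
      q.m12 * (L.Th - tc) * L.Zx + q.m13 * (L.Th - tc) * L.Zy + q.n22 * L.Zx ^ 2 +
      q.m23 * L.Zx * L.Zy + q.n33 * L.Zy ^ 2))
    (q1 := -(q.m04 + q.m14 * (L.Th - tc) + q.m24 * L.Zx + q.m34 * L.Zy))
    (q2 := -(q.m05 + q.m15 * (L.Th - tc) + q.m25 * L.Zx + q.m35 * L.Zy))
    (q11 := -q.n44) (q12 := -q.m45 / 2) (q22 := -q.n55) (R := 0)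
    (by exact_mod_cast neg_nonneg.2 d1) (by exact_mod_cast neg_nonneg.2 d2)
    (by
      have : (q.m45 : ℝ) ^ 2 ≤ 4 * (q.n44 * q.n55) := by exact_mod_cast d3
      linarith only [this])
    (by linarith only [s0]) (by linarith only [s1]) (by linarith only [s2])
  rw [Q21.ev]
  linarith only [fin]

end Pool.Agent.Lib.MP_fb520c_co.Dent
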