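import Pool.Agent.Lib.MP_fb520c_co.Cell.Main
import Pool.Agent.Lib.MP_fb520c_co.Asm.CellB

/-! The certificate of one cell gives a fact. -/

set_option autoImplicit false

noncomputable section

namespace Pool.Agent.Lib.MP_fb520c_co.Asm

open Dent Chk

/-- the check of one cell with directions `g` -/
def cellK1 (g : Dirs) (k : Bool) (d : CellD) (G : Terms) : Bool :=
  Bool.rec false (Bool.rec false (Bool.rec false
    (runOK d.p g d.c1 d.c2 d.c3 (imul d.cut.tc 281474976710656) d.q d.w d.H d.s G)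
    (cutOK d.p (toQ21 d.q) d.cut)) k) (decide (d.p.Good g))

/-- the check of one cell of the table -/
def cellK (t : Tab) (be : ℕ → ℕ) (r : ℚ) (s0 s1 s2 : Smp) (d : CellD) (G : Terms) : Bool :=
  cellK1 (dirs t r s0 s1 s2) (beOK be d.p.be s0 s1 s2) d G

lemma cellK1_split {g : Dirs} {k : Bool} {d : CellD} {G : Terms} (h : cellK1 g k d G = true) :
    d.p.Good g ∧ k = true ∧ cutOK d.p (toQ21 d.q) d.cut = true ∧
      runOK d.p g d.c1 d.c2 d.c3 (imul d.cut.tc 281474976710656) d.q d.w d.H d.s G = true :=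
  ⟨of_decide_eq_true (rec_true h).2, (rec_true (rec_true h).1).2,
    (rec_true (rec_true (rec_true h).1).1).2, (rec_true (rec_true (rec_true h).1).1).1⟩

theorem Ctx.cellK {t : Tab} {A η : ℝ} {b : ℂ → ℂ} (h : Ctx t A η b) {be : ℕ → ℕ} (hb : Bd t b be)
    (r : ℚ) (s0 s1 s2 : Smp) (d : CellD) (G : Terms) (k : cellK t be r s0 s1 s2 d G = true) :
    Fact (xv t b) [(atoms [s0, s1, s2], G)] := by
  obtain ⟨k1, k2, k3, k4⟩ := cellK1_split k
  refine h.cell hb k1 k2 k4 fun L _ o => ?_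
  have e : ((imul d.cut.tc 281474976710656 : ℤ) : ℝ) / sc = d.cut.tc / 65536 := by
    rw [imul_eq, sc]; push_cast; ring
  rw [e]
  exact cut_sound k3 o

end Pool.Agent.Lib.MP_fb520c_co.Asm
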